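import Mathlib
import Pool.Agent.H.MP_6756f0_al.W

set_option autoImplicit false

namespace Pool.Agent.Results.MP_5d828d_al.No

open Pool.Agent.H.MP_811251_al Pool.Agent.H.MP_6756f0_al MvPolynomial

variable (k : Type) [Field k]

/-- The ideal generated by the three variables. -/
noncomputable def mx : Ideal (MvPolynomial (Fin 3) k) := Ideal.span (Set.range X)

/-- The dimension over `k` of the homomorphisms from `R / m` to `R`. -/
noncomputable def hom0 {R : Type} [CommRing R] [Algebra k R] (m : Ideal R) : ℕ :=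
  Module.finrank k ((R ⧸ m) →ₗ[R] R)

/-- The ideal contains the homogeneous components of its elements. -/
def Homog (I : Ideal (MvPolynomial (Fin 3) k)) : Prop := ∀ f ∈ I, ∀ d, homogeneousComponent d f ∈ I

lemma hom0_eq {R : Type} [CommRing R] [Algebra k R] (m : Ideal R) (F : R →ₗ[k] k × k)
    (h1 : ∀ r, (∀ a ∈ m, a * r = 0) → F r = 0 → r = 0) (h2 : ∀ c, ∃ r, (∀ a ∈ m, a * r = 0) ∧ F r = c) :
    hom0 k m = 2 := by
  let G : ((R ⧸ m) →ₗ[R] R) →ₗ[k] k × k :=
    { toFun := fun g => F (g (Submodule.Quotient.mk 1))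
      map_add' := by simp
      map_smul' := by simp }
  have e : ∀ (g : (R ⧸ m) →ₗ[R] R) (a : R), g (Submodule.Quotient.mk a) = a * g (Submodule.Quotient.mk 1) :=
    fun g a => by rw [← smul_eq_mul, ← map_smul, ← Submodule.Quotient.mk_smul, smul_eq_mul, mul_one]
  rw [hom0, (LinearEquiv.ofBijective G ⟨(injective_iff_map_eq_zero _).2 fun g hg => ?_, fun c => ?_⟩).finrank_eq]
  · simp
  · have := h1 _ (fun a ha => by rw [← e, (Submodule.Quotient.mk_eq_zero _).2 ha, map_zero]) hg
    refine LinearMap.ext fun a => ?_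
    obtain ⟨a, rfl⟩ := Submodule.Quotient.mk_surjective _ a
    rw [e, this, mul_zero]; rfl
  · obtain ⟨r, h, rfl⟩ := h2 c
    exact ⟨m.liftQ (LinearMap.toSpanSingleton R R r) h, congrArg F (one_mul r)⟩

noncomputable def s1 : Fin 3 →₀ ℕ := Finsupp.single 0 1 + Finsupp.single 1 1 + Finsupp.single 2 1

noncomputable def lam : MvPolynomial (Fin 3) k →ₗ[k] k × k :=
  (lcoeff k (Finsupp.single (0 : Fin 3) 3) + lcoeff k (Finsupp.single 1 3) + lcoeff k (Finsupp.single 2 3)).prod
    (lcoeff k s1)

noncomputable def An : Ideal (MvPolynomial (Fin 3) k) where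
  carrier := {f | ∀ g, lam k (g * f) = 0}
  add_mem' h1 h2 g := by rw [mul_add, map_add, h1, h2, add_zero]
  zero_mem' g := by simp
  smul_mem' c f h g := by rw [smul_eq_mul, ← mul_assoc, h]

lemma dg (m : Fin 3 →₀ ℕ) : m.degree = m 0 + m 1 + m 2 := by
  simp [Finsupp.degree_eq_sum, Fin.sum_univ_three]

lemma le3 : An k ≤ idealOfVars _ k ^ 3 := fun f hf => (mem_pow_idealOfVars_iff' 3 f).2 fun x hx => by
  by_cases h : x ≤ s1
  · have := congrArg Prod.snd (hf (monomial (s1 - x) 1))
    simp only [lam, LinearMap.prod_apply, Function.prod, lcoeff_apply] at this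
    nth_rw 1 [← tsub_add_cancel_of_le h] at this
    simpa [coeff_monomial_mul] using this
  obtain ⟨j, rfl⟩ : ∃ j, x = Finsupp.single j 2 := by
    simp [Finsupp.le_def, Finsupp.ext_iff, Fin.forall_fin_succ, Fin.exists_fin_succ, s1, dg] at h hx ⊢
    omega
  have := congrArg Prod.fst (hf (X j))
  fin_cases j <;> simpa [lam, coeff_X_mul', ← Finsupp.single_tsub] using this

lemma ge4 : idealOfVars _ k ^ 4 ≤ An k := fun f hf g => by
  have := (mem_pow_idealOfVars_iff' 4 _).1 (Ideal.mul_mem_left _ g hf)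
  simp [lam, this, dg, s1]

lemma mker : mx k = RingHom.ker (constantCoeff : MvPolynomial (Fin 3) k →+* k) := by
  ext f
  rw [mx, ← pow_one (Ideal.span _), mem_pow_idealOfVars_iff']
  simp [constantCoeff_eq, Finsupp.degree_eq_zero_iff]

lemma mmax : (mx k).IsMaximal :=
  mker k ▸ RingHom.ker_isMaximal_of_surjective _ fun c => ⟨C c, by simp⟩

lemma hP (P : Ideal (MvPolynomial (Fin 3) k)) (h : P.IsPrime) (h1 : An k ≤ P) : P = mx k :=
  ((mmax k).eq_of_le h.ne_top (h.le_of_pow_le ((ge4 k).trans h1))).symm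

lemma ht : (mx k).height = 3 := by
  have := mmax k
  refine le_antisymm ?_ ?_
  · have := (mx k).height_le_ringKrullDim_of_isPrime
    rw [MvPolynomial.ringKrullDim_of_isNoetherianRing, ringKrullDim_eq_zero_of_field] at this
    simp at this
    exact WithBot.coe_le_coe.1 this
  let f : ℕ → MvPolynomial (Fin 3) k →ₐ[k] MvPolynomial (Fin 3) k :=
    fun j => aeval fun i => if i.val < j then 0 else X i
  have e : ∀ j, (RingHom.ker (f j)).IsPrime := fun j => RingHom.ker_isPrime _
  have l : ∀ j : Fin 3, RingHom.ker (f j) < RingHom.ker (f (j + 1)) := fun j => by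
    refine lt_of_le_not_ge (fun a ha => ?_) fun h => ?_
    · have : (f (j + 1)).comp (f j) = f (j + 1) := by
        refine algHom_ext fun i => ?_
        by_cases h : i < j
        · simp [f, h, h.le]
        · simp [f, h]
      rw [RingHom.mem_ker, ← this, AlgHom.comp_apply, show f j a = 0 from ha, map_zero]
    · simpa [f] using h (x := X j) (by simp [f])
  have h0 := Ideal.height_add_one_le_of_lt_of_isPrime (l 0)
  have h1 := Ideal.height_add_one_le_of_lt_of_isPrime (l 1)
  have h2 := Ideal.height_add_one_le_of_lt_of_isPrime (l 2)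
  have h3 : RingHom.ker (f 3) ≤ mx k :=
    ((mmax k).eq_of_le (e 3).ne_top (Ideal.span_le.2 (by rintro _ ⟨i, rfl⟩; simp [f]))).ge
  refine le_trans ?_ (h2.trans (Ideal.height_mono h3))
  refine le_trans ?_ (add_le_add_left h1 1)
  refine le_trans ?_ (add_le_add_left (add_le_add_left h0 1) 1)
  rw [add_assoc, add_assoc]
  exact le_add_self

theorem result : ∃ I : Ideal (MvPolynomial (Fin 3) k), Homog k I ∧ I ≤ mx k ^ 2 ∧
    ringKrullDim (MvPolynomial (Fin 3) k ⧸ I) = 0 ∧ Golod k (fun j => Ideal.Quotient.mk I (X j)) ∧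
    hom0 k ((mx k).map (Ideal.Quotient.mk I)) = 2 ∧ I.height = 3 := by
  have l2 : An k ≤ mx k := (le3 k).trans (Ideal.pow_le_self (by decide))
  refine ⟨An k, fun f hf d => ?_, (le3 k).trans (Ideal.pow_le_pow_right (by decide)), ?_, ?_, ?_, ?_⟩
  · have h := (mem_pow_idealOfVars_iff' 3 f).1 (le3 k hf)
    by_cases e : d = 3
    · rw [← sub_sub_cancel f (homogeneousComponent d f)]
      refine sub_mem hf (ge4 k ((mem_pow_idealOfVars_iff' 4 _).2 fun x hx => ?_))
      rw [coeff_sub, coeff_homogeneousComponent]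
      split_ifs with h1
      · simp
      · simpa using h x (by omega)
    · refine ge4 k ((mem_pow_idealOfVars_iff' 4 _).2 fun x hx => ?_)
      rw [coeff_homogeneousComponent]
      split_ifs with h1
      · exact h x (by omega)
      · rfl
  · have := Ideal.Quotient.nontrivial_iff.2 (ne_top_of_le_ne_top (mmax k).ne_top l2)
    refine ringKrullDimZero_iff_ringKrullDim_eq_zero.1 (Ring.krullDimLE_zero_iff.2 fun P h => ?_)
    have e := Ideal.map_comap_of_surjective _ Ideal.Quotient.mk_surjective P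
    rw [hP k (P.comap _) (Ideal.comap_isPrime _ _)
      (fun a ha => by simp [Ideal.Quotient.eq_zero_iff_mem.2 ha])] at e
    exact (e ▸ Ideal.map_eq_top_or_isMaximal_of_surjective _ Ideal.Quotient.mk_surjective (mmax k)).resolve_left
      h.ne_top
  · refine golod_W (Ideal.Quotient.mkₐ k (An k)) Ideal.Quotient.mk_surjective (φ := fun m => 3 ≤ m.degree)
      (ψ := fun m => 2 ≤ m.degree)
      (fun r hr => (mem_pow_idealOfVars_iff 3 r).1 (le3 k (Ideal.Quotient.eq_zero_iff_mem.1 hr)))
      (fun m m' h1 h2 => Ideal.Quotient.eq_zero_iff_mem.2 (ge4 k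
        ((monomial_mem_pow_idealOfVars_iff 4 _ one_ne_zero).2 (by rw [map_add]; omega))))
      fun i z hz h => red0 (fun m p h1 h2 => ?_) hz h
    rw [dg] at h1 ⊢
    fin_cases p <;> simp at h2 ⊢ <;> omega
  · refine hom0_eq k _ (((An k).restrictScalars k).liftQ (lam k) (fun a ha => by simpa using ha 1) ∘ₗ
      (Submodule.Quotient.restrictScalarsEquiv k (An k)).symm.toLinearMap) (fun r h1 h2 => ?_) fun c => ?_
    · obtain ⟨f, rfl⟩ := Ideal.Quotient.mk_surjective r
      refine Ideal.Quotient.eq_zero_iff_mem.2 fun g => ?_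
      have : lam k (1 * ((g - C (constantCoeff g)) * f)) = 0 := Ideal.Quotient.eq_zero_iff_mem.1 (h1 _ (Ideal.mem_map_of_mem _
        (show g - C (constantCoeff g) ∈ mx k by simp [mker]))) 1
      rw [one_mul, sub_mul, map_sub, ← smul_eq_C_mul, map_smul, show lam k f = 0 from h2] at this
      simpa using this
    · refine ⟨Ideal.Quotient.mk _ (monomial (Finsupp.single 0 3) c.1 + monomial s1 c.2), fun a ha => ?_, ?_⟩
      · obtain ⟨a, ha', rfl⟩ := (Ideal.mem_map_iff_of_surjective _ Ideal.Quotient.mk_surjective).1 ha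
        refine Ideal.Quotient.eq_zero_iff_mem.2 (ge4 k ?_)
        rw [pow_succ']
        refine Ideal.mul_mem_mul ha' (add_mem ?_ ?_) <;>
          refine (mem_pow_idealOfVars_iff _ _).2 fun x hx => ?_ <;>
          simp [Finset.mem_singleton.1 (support_monomial_subset hx), dg, s1]
      · change lam k _ = c
        simp [lam, coeff_monomial, s1, Finsupp.ext_iff, Fin.forall_fin_succ]
  · refine le_antisymm (ht k ▸ Ideal.height_mono l2) ?_
    rw [Ideal.height_eq_inf_minimalPrimes]
    exact le_iInf₂ fun P h => by rw [hP k P h.1.1 h.1.2, ht]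

end Pool.Agent.Results.MP_5d828d_al.No
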